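import Pool.Agent.HE.Ker

set_option autoImplicit false
set_option linter.unusedSectionVars false

noncomputable section

open scoped InnerProductSpace ENNReal Topology
open Classical Filter ContinuousLinearMap

namespace Pool.Agent.HE

open Pool.Agent.VN Pool.Agent.LFT Pool.Agent.HI

/-- H20: goodness is a local property -/
theorem good_local {k : Subring ℂ} {G W : Type} [Group G] [MulAction G W]
    (h : ∀ (T : Finset W) (F : Finset G), ∃ (W1 : Type) (_ : MulAction G W1) (p : W1 → W)
      (s : W → W1), Eqv G p ∧ (∀ w ∈ T, p (s w) = w) ∧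
      (∀ g ∈ F, ∀ w ∈ T, g • w ∈ T → g • s w = s (g • w)) ∧ Good k G W1) : Good k G W := by
  intro Γ _ π hπ
  refine ⟨?_, ?_⟩
  · intro U _ ι _ lab X hX
    obtain ⟨T1, F1, -, hL⟩ := rat_lift_lab hX
    obtain ⟨W1, iW, p, s, -, -, hs, hG⟩ := h (T1.image fun m => ofVia m.1) (F1.image π)
    have hR := hL (Via π W1 × U) inferInstance
      (fun m => (toVia π (s (ofVia m.1)), m.2)) (by
        intro γ hγ m hm hm'
        have h1 := hs (π γ) (Finset.mem_image_of_mem _ hγ) (ofVia m.1)
          (Finset.mem_image_of_mem (fun m : Via π W × U => ofVia m.1) hm)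
          (Finset.mem_image_of_mem (fun m : Via π W × U => ofVia m.1) hm')
        exact Prod.ext h1 rfl)
    exact (hG Γ π hπ).1 U ι inferInstance _ X hR
  · intro X _ hX U _ ι _ d K0 K1 h0 h1 ε hε
    obtain ⟨T0, F0, hT0, hL0⟩ := rat_lift_lab h0
    obtain ⟨T1, F1, hT1, hL1⟩ := rat_lift_lab h1
    obtain ⟨W1, iW, p, s, hp, hps, hs, hG⟩ := h
      ((T0.image fun m => ofVia m.2.1) ∪ (T1.image fun m => ofVia m.2.1))
      ((F0 ∪ F1).image (π.comp (rh X Γ)))
    have hR0 := hL0 (TA X Γ × (Via (π.comp (rh X Γ)) W1 × U)) inferInstance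
      (fun m => (m.1, (toVia _ (s (ofVia m.2.1)), m.2.2))) (by
        intro γ hγ m hm hm'
        have h1 := hs ((π.comp (rh X Γ)) γ)
          (Finset.mem_image_of_mem _ (Finset.mem_union_left _ hγ)) (ofVia m.2.1)
          (Finset.mem_union_left _ (Finset.mem_image_of_mem
            (fun m : TA X Γ × (Via (π.comp (rh X Γ)) W × U) => ofVia m.2.1) hm))
          (Finset.mem_union_left _ (Finset.mem_image_of_mem
            (fun m : TA X Γ × (Via (π.comp (rh X Γ)) W × U) => ofVia m.2.1) hm'))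
        exact Prod.ext rfl (Prod.ext h1 rfl))
    have hR1 := hL1 (TB X Γ × (Via (π.comp (rh X Γ)) W1 × U)) inferInstance
      (fun m => (m.1, (toVia _ (s (ofVia m.2.1)), m.2.2))) (by
        intro γ hγ m hm hm'
        have h1 := hs ((π.comp (rh X Γ)) γ)
          (Finset.mem_image_of_mem _ (Finset.mem_union_right _ hγ)) (ofVia m.2.1)
          (Finset.mem_union_right _ (Finset.mem_image_of_mem
            (fun m : TB X Γ × (Via (π.comp (rh X Γ)) W × U) => ofVia m.2.1) hm))
          (Finset.mem_union_right _ (Finset.mem_image_of_mem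
            (fun m : TB X Γ × (Via (π.comp (rh X Γ)) W × U) => ofVia m.2.1) hm'))
        exact Prod.ext rfl (Prod.ext h1 rfl))
    obtain ⟨S, hS, hle⟩ := (hG Γ π hπ).2 X hX U ι inferInstance
      (fun i => ((d i).1, (toVia _ (s (ofVia (d i).2.1)), (d i).2.2))) K0 K1 hR0 hR1 ε hε
    refine ⟨S, ?_, hle⟩
    have hM := hS.mapLab (M' := TD X Γ × (Via (π.comp (rh X Γ)) W × U))
      (fun m => (m.1, (toVia _ (p (ofVia m.2.1)), m.2.2))) (by
        intro g m
        exact Prod.ext rfl (Prod.ext (hp ((π.comp (rh X Γ)) g) (ofVia m.2.1)) rfl))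
    have e : (fun i => ((d i).1, (toVia (π.comp (rh X Γ)) (p (s (ofVia (d i).2.1))),
        (d i).2.2))) = d := by
      funext i
      have h2 := hps (ofVia (d i).2.1) (Finset.mem_union_left _ (Finset.mem_image_of_mem
            (fun m : TA X Γ × (Via (π.comp (rh X Γ)) W × U) => ofVia m.2.1) (hT0 i)))
      exact Prod.ext rfl (Prod.ext h2 rfl)
    rw [← e]
    exact hM

end Pool.Agent.HE
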