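import Pool.Agent.HE.Ker

set_option autoImplicit false
set_option linter.unusedSectionVars false

noncomputable section

open scoped InnerProductSpace ENNReal Topology
open Classical Filter ContinuousLinearMap

namespace Pool.Agent.HE

open Pool.Agent.VN Pool.Agent.LFT Pool.Agent.HI

/-- H19: disjoint unions of good sets are good -/
theorem good_sigma {k : Subring ℂ} {G W C : Type} [Group G] [MulAction G W] (c : W → C)
    (hc : ∀ (g : G) w, c (g • w) = c w)
    (h : ∀ c0, ∃ (W0 : Type) (_ : MulAction G W0) (j : W0 → W), Eqv G j ∧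
      Function.Injective j ∧ (∀ w, c w = c0 → ∃ w0, j w0 = w) ∧ Good k G W0) : Good k G W := by
  intro Γ _ π hπ
  constructor
  · intro U _
    refine int_of_on (fun p : Via π W × U => c (ofVia p.1)) (fun g p => hc (π g) (ofVia p.1))
      fun c0 ι _ lab hlab X hX => ?_
    obtain ⟨W0, _, j, hj, hji, hjs, hW0⟩ := h c0
    choose w0 hw0 using fun i => hjs _ (hlab i)
    have hlab' : lab = fun i => (Prod.map (fun w : Via π W0 => toVia π (j (ofVia w))) id :
        Via π W0 × U → Via π W × U) (toVia π (w0 i), (lab i).2) := by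
      funext i
      apply Prod.ext
      · exact (hw0 i).symm
      · rfl
    rw [hlab'] at hX
    have hX' := rat_of_inj (k := k) (Prod.map (fun w : Via π W0 => toVia π (j (ofVia w))) id :
        Via π W0 × U → Via π W × U) (by
          intro g p
          apply Prod.ext
          · exact hj (π g) (ofVia p.1)
          · rfl) (by
          intro p p' hp
          apply Prod.ext
          · exact hji (congrArg Prod.fst hp)
          · exact (Prod.ext_iff.1 hp).2) hX
    exact (hW0 Γ π hπ).1 U ι _ _ X hX'
  · intro X _ hX U _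
    refine af_of_on (C := C) (fun g p => ?_) (fun g p => ?_)
      (fun p : TA X Γ × (Via (π.comp (rh X Γ)) W × U) => c (ofVia p.2.1))
      (fun p : TB X Γ × (Via (π.comp (rh X Γ)) W × U) => c (ofVia p.2.1))
      (fun g p => hc _ (ofVia p.2.1)) (fun g p => hc _ (ofVia p.2.1)) (fun _ => rfl)
      fun c0 ι _ d hd K0 K1 h0 h1 ε hε => ?_
    · apply Prod.ext
      · exact ta_smul X Γ g p.1
      · rfl
    · apply Prod.ext
      · exact tb_smul X Γ g p.1
      · rfl
    obtain ⟨W0, _, j, hj, hji, hjs, hW0⟩ := h c0
    choose w0 hw0 using fun i => hjs _ (hd i)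
    let J : Via (π.comp (rh X Γ)) W0 × U → Via (π.comp (rh X Γ)) W × U :=
      Prod.map (fun w => toVia (π.comp (rh X Γ)) (j (ofVia w))) id
    have hJ : Eqv (Sd X Γ) J := by
      intro g p
      apply Prod.ext
      · exact hj _ (ofVia p.1)
      · rfl
    have hJi : Function.Injective J := by
      intro p p' hp
      apply Prod.ext
      · exact hji (congrArg Prod.fst hp)
      · exact (Prod.ext_iff.1 hp).2
    let d0 : ι → TD X Γ × (Via (π.comp (rh X Γ)) W0 × U) := fun i =>
      ((d i).1, (toVia (π.comp (rh X Γ)) (w0 i), (d i).2.2))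
    have hd0 : ∀ i, (Prod.map id J (d0 i) : TD X Γ × (Via (π.comp (rh X Γ)) W × U)) = d i := by
      intro i
      apply Prod.ext
      · rfl
      · apply Prod.ext
        · exact hw0 i
        · rfl
    have hd0' : (fun i => (Prod.map id J (d0 i) : TD X Γ × (Via (π.comp (rh X Γ)) W × U))) = d :=
      funext hd0
    have eA : (fun i => (Prod.map (ta X Γ) id (d i) : TA X Γ × (Via (π.comp (rh X Γ)) W × U))) =
        fun i => (Prod.map id J : TA X Γ × (Via (π.comp (rh X Γ)) W0 × U) →
          TA X Γ × (Via (π.comp (rh X Γ)) W × U)) (Prod.map (ta X Γ) id (d0 i)) := by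
      funext i
      rw [← hd0 i]
      rfl
    have eB : (fun i => (Prod.map (tb X Γ) id (d i) : TB X Γ × (Via (π.comp (rh X Γ)) W × U))) =
        fun i => (Prod.map id J : TB X Γ × (Via (π.comp (rh X Γ)) W0 × U) →
          TB X Γ × (Via (π.comp (rh X Γ)) W × U)) (Prod.map (tb X Γ) id (d0 i)) := by
      funext i
      rw [← hd0 i]
      rfl
    rw [eA] at h0
    rw [eB] at h1
    have h0' := rat_of_inj (k := k) (Prod.map id J : TA X Γ × (Via (π.comp (rh X Γ)) W0 × U) →
          TA X Γ × (Via (π.comp (rh X Γ)) W × U)) (fun g p => by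
            apply Prod.ext
            · rfl
            · exact hJ g p.2) (Function.Injective.prodMap Function.injective_id hJi) h0
    have h1' := rat_of_inj (k := k) (Prod.map id J : TB X Γ × (Via (π.comp (rh X Γ)) W0 × U) →
          TB X Γ × (Via (π.comp (rh X Γ)) W × U)) (fun g p => by
            apply Prod.ext
            · rfl
            · exact hJ g p.2) (Function.Injective.prodMap Function.injective_id hJi) h1
    obtain ⟨S, hS, hS'⟩ := (hW0 Γ π hπ).2 X hX U ι _ d0 K0 K1 h0' h1' ε hε
    refine ⟨S, ?_, hS'⟩
    have h2 := Rat.mapLab (Prod.map id J : TD X Γ × (Via (π.comp (rh X Γ)) W0 × U) →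
          TD X Γ × (Via (π.comp (rh X Γ)) W × U)) (fun g p => by
            apply Prod.ext
            · rfl
            · exact hJ g p.2) hS
    rw [hd0'] at h2
    exact h2

end Pool.Agent.HE
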