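import Pool.Agent.HE.Step
import Pool.Agent.HE.Sigma
import Pool.Agent.HE.Local

set_option autoImplicit false
set_option linter.unusedSectionVars false

noncomputable section

open scoped InnerProductSpace ENNReal Topology
open Classical Filter ContinuousLinearMap

namespace Pool.Agent.HE

open Pool.Agent.VN Pool.Agent.LFT Pool.Agent.HI

/-- the inductive property of a group -/
def PB (k : Subring ℂ) (B : Type) [Group B] : Prop :=
  ∀ (G W : Type) [Group G] [MulAction G W] (c : G → W → B), Coc c → Good k G W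

theorem pb_triv (k : Subring ℂ) (B : Type) [Group B] [Subsingleton B] : PB k B := by
  intro G W _ _ c hc
  exact good_free fun g w h => hc.inj g w h (Subsingleton.elim _ _)

/-- twisted products with transitive sets -/
lemma good_tw {k : Subring ℂ} {G B W : Type} [Group G] [Group B] [MulAction G W] {c : G → W → B}
    (hc : Coc c) {Y : Type} [MulAction B Y] (y0 : Y) (htr : ∀ y, ∃ b : B, b • y0 = y)
    (K : Subgroup B) (hK : MulAction.stabilizer B y0 = K) (h : PB k K) :
    Good k G (Tw hc Y) := by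
  subst hK
  obtain ⟨c', hc'⟩ := hc.stab y0 htr
  exact h G (Tw hc Y) c' hc'

theorem pb_union (k : Subring ℂ) (B : Type) [Group B] (H : Finset B → Subgroup B)
    (hH : ∀ F, ∀ g ∈ F, g ∈ H F) (h : ∀ F, PB k (H F)) : PB k B := by
  intro G W _ _ c hc
  refine good_local fun T F => ?_
  set F' : Finset B := (F ×ˢ T).image fun p => c p.1 p.2 with hF'
  refine ⟨Tw hc (B ⧸ H F'), inferInstance, fun x => x.1,
    fun w => mkTw hc w ((1 : B) : B ⧸ H F'), fun g x => rfl, fun w _ => rfl, ?_, ?_⟩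
  · intro g hg w hw _
    rw [tw_smul]
    have h1 : c g w ∈ H F' := hH F' _ (Finset.mem_image.mpr ⟨(g, w), by simp [hg, hw], rfl⟩)
    have h2 : c g w • ((1 : B) : B ⧸ H F') = ((1 : B) : B ⧸ H F') := by
      rw [MulAction.Quotient.smul_coe, smul_eq_mul, mul_one]
      rw [QuotientGroup.eq]
      simpa using (H F').inv_mem h1
    rw [h2]
  · refine good_tw hc ((1 : B) : B ⧸ H F') ?_ (H F') ?_ (h F')
    · intro y
      obtain ⟨b, rfl⟩ := QuotientGroup.mk_surjective y
      exact ⟨b, by rw [MulAction.Quotient.smul_coe, smul_eq_mul, mul_one]⟩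
    · exact MulAction.stabilizer_quotient _

section TreeStep

variable {B V : Type} [Group B] [MulAction B V]

theorem pb_tree (k : Subring ℂ) (T : SimpleGraph V) (hT : T.IsTree)
    (hadj : ∀ (g : B) (u v : V), T.Adj u v → T.Adj (g • u) (g • v))
    (hinv : ∀ (g : B) (u v : V), T.Adj u v → ¬ (g • u = v ∧ g • v = u))
    (h : ∀ v : V, PB k (MulAction.stabilizer B v)) : PB k B := by
  intro G W _ _ c hc
  have hne : Nonempty V := hT.connected.nonempty
  obtain ⟨v0⟩ := hne
  by_cases hd : Nonempty T.Dart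
  swap
  · -- no edges: a single vertex
    have hs : ∀ v : V, v = v0 := by
      intro v
      by_contra hne
      obtain ⟨w⟩ := hT.connected.preconnected v v0
      cases w with
      | nil => exact hne rfl
      | cons h _ => exact hd ⟨⟨(_, _), h⟩⟩
    refine h v0 G W (fun g w => ⟨c g w, hs _⟩) ⟨?_, ?_⟩
    · intro g h w
      exact Subtype.ext (hc.mul g h w)
    · intro g w h1 h2
      exact hc.inj g w h1 (congrArg Subtype.val h2)
  obtain ⟨δ0⟩ := hd
  let i1 : MulAction B T.Dart := dartAct T hadj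
  let i2 : MulAction B {e : Sym2 V // e ∈ T.edgeSet} := edgeAct T hadj
  obtain ⟨o, ho⟩ := exists_orient T hadj hinv
  set α0 : T.Dart → V := fun e => e.fst with hα0
  set α1 : T.Dart → {e : Sym2 V // e ∈ T.edgeSet} := fun e => ⟨e.edge, e.edge_mem⟩ with hα1
  have h0 : ∀ (g : B) δ, α0 (g • δ) = g • α0 δ := fun g δ => rfl
  have h1 : ∀ (g : B) δ, α1 (g • δ) = g • α1 δ := fun g δ => rfl
  have hedge : ∀ (δ : T.Dart) (g : B), g • α1 δ = α1 δ → g • δ = δ := by
    intro δ g hg
    rw [← h1] at hg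
    have h2 : (g • δ).edge = δ.edge := congrArg Subtype.val hg
    rw [SimpleGraph.dart_edge_eq_iff] at h2
    rcases h2 with h2 | h2
    · exact h2
    · exfalso
      apply hinv g δ.fst δ.snd δ.adj
      exact ⟨congrArg (fun e : T.Dart => e.fst) h2, congrArg (fun e : T.Dart => e.snd) h2⟩
  have hhalf := tree_half T hT
  have hconn := tree_conn T hT
  refine good_step (D := Tw hc T.Dart) (A := Tw hc V) (B := Tw hc {e : Sym2 V // e ∈ T.edgeSet})
    (a := fun x => mkTw hc x.1 (α0 x.2)) (b := fun x => mkTw hc x.1 (α1 x.2))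
    (β := fun x => x.1) (βA := fun x => x.1) (βB := fun x => x.1)
    (fun g x => rfl) (fun g x => rfl) (fun g x => rfl) (fun g x => rfl) (fun g x => rfl)
    (fun x => rfl) (fun x => rfl) (fun w => ⟨mkTw hc w δ0, rfl⟩) ?_ ?_ ?_
    (fun x => mkTw hc x.1 (o x.2)) (fun g x => ?_) ?_
  · rintro ⟨w, δ⟩ ⟨w', δ'⟩ hw
    have hw' : w = w' := hw
    subst hw'
    have h2 := hconn δ δ'
    unfold Conn at h2 ⊢
    induction h2 with
    | refl => exact Relation.ReflTransGen.refl
    | @tail x y _ h3 ih =>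
      refine (ih rfl).tail ?_
      rcases h3 with h3 | h3
      · left
        show mkTw hc w (α0 x) = mkTw hc w (α0 y)
        have h4 : α0 x = α0 y := h3
        rw [h4]
      · right
        show mkTw hc w (α1 x) = mkTw hc w (α1 y)
        have h4 : α1 x = α1 y := h3
        rw [h4]
  · rintro ⟨w, δ⟩
    obtain ⟨Y, hY1, hY2, hY3⟩ := hhalf δ
    refine ⟨{x | x.1 = w ∧ x.2 ∈ Y}, ⟨rfl, hY1⟩, ?_, ?_⟩
    · rintro ⟨w1, ε⟩ ⟨w2, ε'⟩ hx
      have h2 : w1 = w2 := congrArg Prod.fst hx
      have h3 : α0 ε = α0 ε' := congrArg Prod.snd hx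
      subst h2
      show (w1 = w ∧ ε ∈ Y) ↔ (w1 = w ∧ ε' ∈ Y)
      rw [hY2 ε ε' h3]
    · rintro ⟨w1, ε⟩ ⟨w2, ε'⟩ hx
      have h2 : w1 = w2 := congrArg Prod.fst hx
      have h3 : α1 ε = α1 ε' := congrArg Prod.snd hx
      subst h2
      have h4 := hY3 ε ε' h3
      show ((w1 = w ∧ ε ∈ Y) ∧ (w1, ε) ≠ (w, δ)) ↔ ((w1 = w ∧ ε' ∈ Y) ∧ (w1, ε') ≠ (w, δ))
      constructor
      · rintro ⟨⟨rfl, h5⟩, h6⟩
        have h7 := h4.mp ⟨h5, fun h8 => h6 (by rw [h8])⟩
        exact ⟨⟨rfl, h7.1⟩, fun h8 => h7.2 (congrArg Prod.snd h8)⟩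
      · rintro ⟨⟨rfl, h5⟩, h6⟩
        have h7 := h4.mpr ⟨h5, fun h8 => h6 (by rw [h8])⟩
        exact ⟨⟨rfl, h7.1⟩, fun h8 => h7.2 (congrArg Prod.snd h8)⟩
  · rintro g ⟨w, δ⟩ hg
    have h2 : g • w = w := congrArg Prod.fst hg
    have h3 : c g w • α1 δ = α1 δ := congrArg Prod.snd hg
    exact Prod.ext h2 (hedge δ _ h3)
  · show mkTw hc (g • x.1) (o (c g x.1 • x.2)) = mkTw hc (g • x.1) (c g x.1 • o x.2)
    rw [← ho]
  · -- the vertices
    refine good_sigma (C := Quotient (MulAction.orbitRel B V))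
      (fun x => Quotient.mk (MulAction.orbitRel B V) x.2) ?_ ?_
    · intro g x
      exact Quotient.sound (s := MulAction.orbitRel B V) ⟨c g x.1, rfl⟩
    · intro c0
      obtain ⟨v, rfl⟩ := Quotient.exists_rep c0
      refine ⟨Tw hc (MulAction.orbit B v), inferInstance, fun x => mkTw hc x.1 x.2.1,
        fun g x => rfl, ?_, ?_, ?_⟩
      · rintro ⟨w, y⟩ ⟨w', y'⟩ hx
        have h2 : w = w' := congrArg (fun x : Tw hc V => x.1) hx
        have h3 : y.1 = y'.1 := congrArg (fun x : Tw hc V => x.2) hx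
        exact Prod.ext h2 (Subtype.ext h3)
      · rintro ⟨w, y⟩ hw
        have h2 : y ∈ MulAction.orbit B v := Quotient.exact hw
        exact ⟨mkTw hc w ⟨y, h2⟩, rfl⟩
      · refine good_tw hc (⟨v, MulAction.mem_orbit_self v⟩ : MulAction.orbit B v) ?_
          (MulAction.stabilizer B v) ?_ (h v)
        · rintro ⟨y, b, rfl⟩
          exact ⟨b, rfl⟩
        · ext g
          rw [MulAction.mem_stabilizer_iff, MulAction.mem_stabilizer_iff]
          constructor
          · intro h2
            exact congrArg Subtype.val h2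
          · intro h2
            exact Subtype.ext h2

end TreeStep

end Pool.Agent.HE
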