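import Pool.Agent.HI.H22
import Pool.Agent.HX.AtMain

set_option autoImplicit false
set_option linter.unusedSectionVars false

noncomputable section

open scoped InnerProductSpace ENNReal Topology
open Classical Filter ContinuousLinearMap

/-!
Relative version of the theory of `Pool.Agent.HI`: the kernels are arbitrary groups which satisfy the
Atiyah conjecture over `k`.
-/

namespace Pool.Agent.HE

open Pool.Agent.VN Pool.Agent.LFT Pool.Agent.HI

/-- the inductive property of a `G`-set: for all groups `Γ` over `G` whose kernel satisfies
the conjecture, dimensions are integral over `W` and the approximate formula holds for the trees of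
the semidirect products of `Γ` with free groups -/
def Good (k : Subring ℂ) (G W : Type) [Group G] [MulAction G W] : Prop :=
  ∀ (Γ : Type) [Group Γ] (π : Γ →* G), AtiyahOver k π.ker →
    (∀ (U : Type) [MulAction Γ U], Int0 k Γ (Via π W × U)) ∧
    ∀ (X : Type) [MulAction Γ X], (∀ γ : Γ, π γ = 1 → ∀ x : X, γ • x = x) →
      ∀ (U : Type) [MulAction (Sd X Γ) U],
        AF k (Sd X Γ)
          (Prod.map (ta X Γ) id : TD X Γ × (Via (π.comp (rh X Γ)) W × U) →
            TA X Γ × (Via (π.comp (rh X Γ)) W × U))
          (Prod.map (tb X Γ) id : TD X Γ × (Via (π.comp (rh X Γ)) W × U) →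
            TB X Γ × (Via (π.comp (rh X Γ)) W × U))

end Pool.Agent.HE
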