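import Pool.Agent.HE.Groups
import Pool.Agent.HI.Final

set_option autoImplicit false
set_option linter.unusedSectionVars false

noncomputable section

open scoped InnerProductSpace ENNReal Topology
open Classical Filter ContinuousLinearMap

namespace Pool.Agent.HE

open Pool.Agent.VN Pool.Agent.LFT Pool.Agent.HI

theorem pb_of_hier (k : Subring ℂ) (G : Type) [inst : Group G] (h : Hier G) : PB k G := by
  induction h with
  | triv G => exact pb_triv k G
  | tree G V T hT hadj hinv _ ih => exact pb_tree k T hT hadj hinv ih
  | union G H hH _ ih => exact pb_union k G H hH ih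

/-- extensions of groups satisfying the conjecture by groups in the hierarchy -/
theorem atiyah_ext (k : Subring ℂ) (G Q : Type) [Group G] [Group Q] (f : G →* Q) (h : Hier Q)
    (hf : AtiyahOver k f.ker) : AtiyahOver k G := by
  have h1 : Coc (fun (g : Q) (_ : Unit) => g) := ⟨fun _ _ _ => rfl, fun _ _ _ h => h⟩
  have h2 := (pb_of_hier k Q h Q Unit _ h1 G f hf).1 Unit
  exact atiyah_of_int0 (Int0.of_map (M' := Via f Unit × Unit)
    (fun _ => ((toVia _ (), ()))) (fun _ _ => rfl) h2)

end Pool.Agent.HE
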