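import Pool.Agent.HE.Ker

set_option autoImplicit false
set_option linter.unusedSectionVars false

noncomputable section

open scoped InnerProductSpace ENNReal Topology
open Classical Filter ContinuousLinearMap

namespace Pool.Agent.HE

open Pool.Agent.VN Pool.Agent.LFT Pool.Agent.HI

/-- H17: integrality over free sets -/
theorem int_free {k : Subring ℂ} {Γ G W U : Type} [Group Γ] [Group G] [MulAction G W]
    [MulAction Γ U] (hW : ∀ (g : G) (w : W), g • w = w → g = 1) {π : Γ →* G} (hπ : AtiyahOver k π.ker) :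
    Int0 k Γ (Via π W × U) := by
  intro ι _ lab X hX
  refine Rat.int ?_ hX
  rintro ⟨w, u⟩
  let ψ : MulAction.stabilizer Γ ((w, u) : Via π W × U) →* π.ker :=
    { toFun := fun g => ⟨g.1, by
        have h1 : (g : Γ) • ((w, u) : Via π W × U) = (w, u) := g.2
        have h2 : (g : Γ) • w = w := (Prod.mk.inj h1).1
        exact hW _ _ h2⟩
      map_one' := rfl
      map_mul' := fun a b => rfl }
  refine AtiyahOver.of_injective hπ ψ ?_
  intro a b hab
  exact Subtype.ext (congrArg (fun x : π.ker => x.1) hab)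

/-- H17: free sets are good -/
theorem good_free {k : Subring ℂ} {G W : Type} [Group G] [MulAction G W]
    (hW : ∀ (g : G) (w : W), g • w = w → g = 1) : Good k G W := by
  intro Γ _ π hπ
  refine ⟨fun U _ => int_free hW hπ, ?_⟩
  intro X _ hX U _
  have hr : ∀ (g : Sd X Γ) (w : Via (π.comp (rh X Γ)) W), g • w = w → ∀ x : X, g.right • x = x := by
    intro g w h x
    apply hX
    exact hW _ _ h
  have hphi : ∀ (g : Sd X Γ), (∀ x : X, g.right • x = x) → ∀ f : FreeGroup X,
      phi X Γ g.right f = f := by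
    intro g h f
    have h1 : (phi X Γ g.right).toMonoidHom = MonoidHom.id (FreeGroup X) := by
      apply FreeGroup.ext_hom
      intro x
      show phi X Γ g.right (FreeGroup.of x) = FreeGroup.of x
      rw [phi_of, h]
    exact DFunLike.congr_fun h1 f
  have hfix : ∀ (g : Sd X Γ) (w : Via (π.comp (rh X Γ)) W) (f : FreeGroup X), g • w = w →
      g.left * phi X Γ g.right f = f → g.left = 1 := by
    intro g w f h1 h2
    rw [hphi g (hr g w h1)] at h2
    exact mul_eq_right.mp h2
  have hdart : ∀ (g : Sd X Γ) (w : Via (π.comp (rh X Γ)) W) (f : FreeGroup X), g • w = w →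
      g.left * phi X Γ g.right f = f → ∀ δ : TD X Γ, g • δ = δ := by
    rintro g w f h1 h2 ⟨f', x, c⟩
    show ((g.left * phi X Γ g.right f', g.right • x, c) : FreeGroup X × X × Bool) = (f', x, c)
    rw [hfix g w f h1 h2, hphi g (hr g w h1), hr g w h1, one_mul]
  refine af_of_keys ?_ ?_ (Half.prod (t_half X Γ) _) ?_ ?_
  · rintro g ⟨δ, c⟩
    rfl
  · rintro g ⟨δ, c⟩
    show ((tb X Γ (g • δ), g • c) : TB X Γ × (Via (π.comp (rh X Γ)) W × U)) = (g • tb X Γ δ, g • c)
    rw [tb_smul]
  · intro ι _ d P hP hl u Y hY ε hε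
    refine key_of_stab (a := (Prod.map (ta X Γ) id : TD X Γ × (Via (π.comp (rh X Γ)) W × U) →
            TA X Γ × (Via (π.comp (rh X Γ)) W × U))) ?_ ?_ d hP hl u hY hε
    · rintro g ⟨δ, c⟩
      rfl
    · rintro g ⟨δ, w, c⟩ h
      have h1 : g • ta X Γ δ = ta X Γ δ := (Prod.mk.inj h).1
      have h2 : g • ((w, c) : Via (π.comp (rh X Γ)) W × U) = (w, c) := (Prod.mk.inj h).2
      have h3 : g • w = w := (Prod.mk.inj h2).1
      have h4 : g • δ = δ := hdart g w δ.1 h3 h1 δ
      exact Prod.ext h4 h2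
  · intro ι _ d P hP hl u Y hY ε hε
    refine key_of_stab (a := (Prod.map (tb X Γ) id : TD X Γ × (Via (π.comp (rh X Γ)) W × U) →
            TB X Γ × (Via (π.comp (rh X Γ)) W × U))) ?_ ?_ d hP hl u hY hε
    · rintro g ⟨δ, c⟩
      show ((tb X Γ (g • δ), g • c) : TB X Γ × (Via (π.comp (rh X Γ)) W × U))
        = (g • tb X Γ δ, g • c)
      rw [tb_smul]
    · rintro g ⟨δ, w, c⟩ h
      have h1 : g • tb X Γ δ = tb X Γ δ := (Prod.mk.inj h).1
      have h2 : g • ((w, c) : Via (π.comp (rh X Γ)) W × U) = (w, c) := (Prod.mk.inj h).2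
      have h3 : g • w = w := (Prod.mk.inj h2).1
      have h5 : g.left * phi X Γ g.right (tb X Γ δ).1 = (tb X Γ δ).1 := (Prod.mk.inj h1).1
      have h4 : g • δ = δ := hdart g w _ h3 h5 δ
      exact Prod.ext h4 h2

end Pool.Agent.HE
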