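import Pool.Agent.HE.Defs

set_option autoImplicit false
set_option linter.unusedSectionVars false

noncomputable section

open scoped InnerProductSpace ENNReal Topology
open Classical Filter ContinuousLinearMap

namespace Pool.Agent.HE

open Pool.Agent.VN Pool.Agent.LFT Pool.Agent.HI

variable {X Γ G : Type} [Group Γ] [Group G] [MulAction Γ X]

lemma phi_triv {γ : Γ} (h : ∀ x : X, γ • x = x) (f : FreeGroup X) : phi X Γ γ f = f := by
  have h1 : (phi X Γ γ).toMonoidHom = MonoidHom.id (FreeGroup X) := by
    apply FreeGroup.ext_hom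
    intro x
    show phi X Γ γ (FreeGroup.of x) = FreeGroup.of x
    rw [phi_of, h]
  exact DFunLike.congr_fun h1 f

/-- the free part of the kernel -/
def freePart {π : Γ →* G} (hX : ∀ γ : Γ, π γ = 1 → ∀ x : X, γ • x = x) :
    (π.comp (rh X Γ)).ker →* FreeGroup X where
  toFun g := g.1.left
  map_one' := rfl
  map_mul' a b := by
    show (a.1 * b.1).left = a.1.left * b.1.left
    rw [SemidirectProduct.mul_left]
    congr 1
    exact phi_triv (hX _ a.2) _

/-- extension of the kernel by letters -/
theorem ker_ext {k : Subring ℂ} {π : Γ →* G} (h : AtiyahOver k π.ker)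
    (hX : ∀ γ : Γ, π γ = 1 → ∀ x : X, γ • x = x) : AtiyahOver k (π.comp (rh X Γ)).ker := by
  apply Pool.Agent.HX.atiyah_of_fg
  intro H hfg hZ
  have hbot : H.map (freePart hX) = ⊥ := by
    by_contra hne
    have hnt : Nontrivial (H.map (freePart hX)) := (Subgroup.nontrivial_iff_ne_bot _).2 hne
    obtain ⟨f, hf⟩ := H16_free (F := H.map (freePart hX))
    apply hf
    have h1 := hZ (f.comp ((freePart hX).subgroupMap H))
    apply MonoidHom.ext
    intro y
    obtain ⟨g, hg⟩ := (freePart hX).subgroupMap_surjective H y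
    have h2 := congrArg (fun f => f g) h1
    rw [← hg]
    simpa using h2
  have hl : ∀ g ∈ H, g.1.left = 1 := by
    intro g hg
    have h1 : freePart hX g ∈ H.map (freePart hX) := Subgroup.mem_map_of_mem _ hg
    rw [hbot] at h1
    exact h1
  let ψ : H →* π.ker :=
    { toFun := fun g => ⟨g.1.1.right, g.1.2⟩
      map_one' := rfl
      map_mul' := fun a b => rfl }
  refine AtiyahOver.of_injective h ψ ?_
  intro a b hab
  apply Subtype.ext
  apply Subtype.ext
  apply SemidirectProduct.ext
  · rw [hl _ a.2, hl _ b.2]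
  · exact congrArg (fun x : π.ker => x.1) hab

end Pool.Agent.HE
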