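import Pool.Agent.HE.Free

set_option autoImplicit false
set_option linter.unusedSectionVars false

noncomputable section

open scoped InnerProductSpace ENNReal Topology
open Classical Filter ContinuousLinearMap

namespace Pool.Agent.HE

open Pool.Agent.VN Pool.Agent.LFT Pool.Agent.HI

section Step

/-- the base of a forest is good if the set of vertices is good -/
theorem good_step {k : Subring ℂ} {G W D A B : Type} [Group G] [MulAction G W] [MulAction G D]
    [MulAction G A] [MulAction G B] {a : D → A} {b : D → B} {β : D → W} {βA : A → W} {βB : B → W}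
    (ha : Eqv G a) (hb : Eqv G b) (hβ : Eqv G β) (hβA : Eqv G βA) (hβB : Eqv G βB)
    (hA : ∀ δ, βA (a δ) = β δ) (hB : ∀ δ, βB (b δ) = β δ) (hsurj : Function.Surjective β)
    (hconn : ∀ δ δ', β δ = β δ' → Conn a b δ δ') (hhalf : Half a b)
    (hstab : ∀ (g : G) δ, g • b δ = b δ → g • δ = δ) (o : B → A) (ho : Eqv G o)
    (hG : Good k G A) : Good k G W := by
  -- the formula for the forest
  have hT : ∀ (Γ : Type) [Group Γ] (π : Γ →* G), AtiyahOver k π.ker → ∀ (U : Type) [MulAction Γ U],
      AF k Γ (Prod.map a id : Via π D × U → Via π A × U)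
        (Prod.map b id : Via π D × U → Via π B × U) := by
    intro Γ _ π hπ U _
    refine af_of_keys (fun g m => Prod.ext (ha (π g) m.1) rfl)
      (fun g m => Prod.ext (hb (π g) m.1) rfl) (Half.prod hhalf U) ?_ ?_
    · intro ι _ d P hP hl u Y hY ε hε
      have hInt : Int0 k (Sd (Lett (Via π D)) Γ) (Via (rh (Lett (Via π D)) Γ) (Via π A × U)) := by
        have h1 := (hG (Sd (Lett (Via π D)) Γ) (π.comp (rh (Lett (Via π D)) Γ))
          (ker_ext hπ (fun γ hγ x => by
            refine Prod.ext ?_ rfl
            show toVia π (π γ • ofVia x.1) = x.1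
            rw [hγ, one_smul]
            rfl))).1
          (Via (rh (Lett (Via π D)) Γ) U)
        exact Int0.of_map (M' := Via (π.comp (rh (Lett (Via π D)) Γ)) A ×
          Via (rh (Lett (Via π D)) Γ) U) (fun x => ((x.1, x.2) : A × U)) (fun g m => rfl) h1
      have hAF : AF k (Sd (Lett (Via π D)) Γ)
          (Prod.map (ta (Lett (Via π D)) Γ) id : TD (Lett (Via π D)) Γ ×
            Via (rh (Lett (Via π D)) Γ) (Via π A × U) →
              TA (Lett (Via π D)) Γ × Via (rh (Lett (Via π D)) Γ) (Via π A × U))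
          (Prod.map (tb (Lett (Via π D)) Γ) id : TD (Lett (Via π D)) Γ ×
            Via (rh (Lett (Via π D)) Γ) (Via π A × U) →
              TB (Lett (Via π D)) Γ × Via (rh (Lett (Via π D)) Γ) (Via π A × U)) := by
        have h1 := (hG Γ π hπ).2 (Lett (Via π D)) (fun γ hγ x => by
          refine Prod.ext ?_ rfl
          show toVia π (π γ • ofVia x.1) = x.1
          rw [hγ, one_smul]
          rfl) (Via (rh (Lett (Via π D)) Γ) U)
        exact AF.of_inj (D' := TD (Lett (Via π D)) Γ × (Via (π.comp (rh (Lett (Via π D)) Γ)) A ×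
            Via (rh (Lett (Via π D)) Γ) U))
          (A' := TA (Lett (Via π D)) Γ × (Via (π.comp (rh (Lett (Via π D)) Γ)) A ×
            Via (rh (Lett (Via π D)) Γ) U))
          (B' := TB (Lett (Via π D)) Γ × (Via (π.comp (rh (Lett (Via π D)) Γ)) A ×
            Via (rh (Lett (Via π D)) Γ) U))
          (fun x => (x.1, ((x.2.1, x.2.2) : A × U)))
          (fun x => (x.1, ((x.2.1, x.2.2) : A × U))) (fun x => (x.1, ((x.2.1, x.2.2) : A × U)))
          (fun g m => rfl) (fun g m => rfl) (fun g m => rfl)
          (fun x y h => by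
            have h1 := congrArg Prod.fst h
            have h2 := congrArg Prod.snd h
            exact Prod.ext h1 h2)
          (fun δ => rfl) (fun δ => rfl) h1
      have hl' : Loc (pV fun i => ((((d i).1 : D), (d i).2) : Via π D × U)) P := hl
      have hj1 : Eqv Γ (fun x : Via π D × U => (((a x.1, x.2), x.1) : (Via π A × U) × Via π D)) :=
        fun g m => Prod.ext (Prod.ext (ha (π g) m.1) rfl) rfl
      have hj2 : Function.Injective
          (fun x : Via π D × U => (((a x.1, x.2), x.1) : (Via π A × U) × Via π D)) := by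
        intro x y h
        exact Prod.ext (congrArg Prod.snd h) (congrArg (fun q => q.1.2) h)
      have hlj := loc_of_inj _ hj1 hj2 hl
      obtain ⟨S, hS, hSe⟩ := key_of_ext hInt hAF (fun i => ((a (d i).1, (d i).2) : Via π A × U))
        (fun i => ((d i).1 : Via π D)) hP hlj u hY
      exact ⟨S, rat_of_inj _ hj1 hj2 hS, by linarith⟩
    · intro ι _ d P hP hl u Y hY ε hε
      refine key_of_stab (a := (Prod.map b id : Via π D × U → Via π B × U))
        (fun g m => Prod.ext (hb (π g) m.1) rfl) ?_ d hP hl u hY hε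
      intro g δ h
      have h1 := congrArg Prod.fst h
      have h2 := congrArg Prod.snd h
      exact Prod.ext (hstab (π g) δ.1 h1) h2
  intro Γ _ π hπ
  refine ⟨?_, ?_⟩
  · intro U _
    refine int_of_af (a := (Prod.map a id : Via π D × U → Via π A × U))
      (b := (Prod.map b id : Via π D × U → Via π B × U))
      (β := (Prod.map β id : Via π D × U → Via π W × U))
      (fun g m => Prod.ext (ha (π g) m.1) rfl) (fun g m => Prod.ext (hb (π g) m.1) rfl)
      (fun g m => Prod.ext (hβ (π g) m.1) rfl) (hsurj.prodMap Function.surjective_id) ?_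
      (hT Γ π hπ U) ((hG Γ π hπ).1 U) ?_
    · rintro ⟨δ, u⟩ ⟨δ', u'⟩ h
      have h1 : u = u' := congrArg Prod.snd h
      subst h1
      exact conn_prod (hconn δ δ' (congrArg Prod.fst h)) u
    · exact Int0.of_map (M' := Via π A × (Via π B × U)) (fun x => ((o x.1, x) : A × (B × U)))
        (fun g m => Prod.ext (ho (π g) m.1) rfl) ((hG Γ π hπ).1 (Via π B × U))
  · intro X _ hX U _
    rcases isEmpty_or_nonempty X with hXe | ⟨⟨x0⟩⟩
    · exact af_isEmpty ⟨fun x => hXe.false x.1.2.1⟩
    set π1 := π.comp (rh X Γ) with hπ1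
    refine product (G := Sd X Γ) (D := Via π1 D × U) (A := Via π1 A × U) (B := Via π1 B × U)
      (W := Via π1 W × U) (a := (Prod.map a id : Via π1 D × U → Via π1 A × U))
      (b := (Prod.map b id : Via π1 D × U → Via π1 B × U))
      (β := (Prod.map β id : Via π1 D × U → Via π1 W × U))
      (βA := (Prod.map βA id : Via π1 A × U → Via π1 W × U))
      (βB := (Prod.map βB id : Via π1 B × U → Via π1 W × U))
      (fun g m => Prod.ext (ha (π1 g) m.1) rfl) (fun g m => Prod.ext (hb (π1 g) m.1) rfl)
      (fun g m => Prod.ext (hβ (π1 g) m.1) rfl) (fun g m => Prod.ext (hβA (π1 g) m.1) rfl)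
      (fun g m => Prod.ext (hβB (π1 g) m.1) rfl) (fun δ => Prod.ext (hA δ.1) rfl)
      (fun δ => Prod.ext (hB δ.1) rfl) (hsurj.prodMap Function.surjective_id) ?_
      (ta_smul X Γ) (tb_smul X Γ) ?_ ?_ (t_conn X Γ) (hT (Sd X Γ) π1 (ker_ext hπ hX) U)
      ((hG Γ π hπ).2 X hX U) ?_
    · rintro ⟨δ, u⟩ ⟨δ', u'⟩ h
      have h1 : u = u' := congrArg Prod.snd h
      subst h1
      exact conn_prod (hconn δ δ' (congrArg Prod.fst h)) u
    · intro f
      exact ⟨((f : FreeGroup X), x0, true), rfl⟩
    · intro f
      exact ⟨((f.1 : FreeGroup X), f.2, true), rfl⟩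
    · exact AF.of_inj (D' := TD X Γ × (Via π1 A × (Via π1 B × U)))
          (A' := TA X Γ × (Via π1 A × (Via π1 B × U)))
          (B' := TB X Γ × (Via π1 A × (Via π1 B × U)))
          (fun x => (x.1, ((o x.2.1, x.2) : A × (B × U))))
          (fun x => (x.1, ((o x.2.1, x.2) : A × (B × U))))
          (fun x => (x.1, ((o x.2.1, x.2) : A × (B × U))))
          (fun g m => Prod.ext rfl (Prod.ext (ho (π1 g) m.2.1) rfl))
          (fun g m => Prod.ext rfl (Prod.ext (ho (π1 g) m.2.1) rfl))
          (fun g m => Prod.ext rfl (Prod.ext (ho (π1 g) m.2.1) rfl))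
          (fun x y h => by
            have h1 := congrArg Prod.fst h
            have h2 := congrArg (fun q => q.2.2) h
            exact Prod.ext h1 h2)
          (fun δ => rfl) (fun δ => rfl) ((hG Γ π hπ).2 X hX (Via π1 B × U))

end Step

end Pool.Agent.HE
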